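import Pool.Agent.W2helper44.OT.Stm

set_option autoImplicit false

namespace Pool.Agent.W2helper71.OT

open Module Pool.Agent.W2helper44.OT

variable {M : Type} [AddCommGroup M]

theorem op_one (h : M →ₗ[ℤ] M) (m : ℕ) :
    op h m 1 = ∑ j ∈ Finset.range m, (h ^ j : Module.End ℤ M) := by
  unfold op
  exact if_neg (by decide)

theorem op_two (h : M →ₗ[ℤ] M) (m : ℕ) : op h m (1 + 1) = (h - 1 : Module.End ℤ M) := by
  unfold op
  exact if_pos (by decide)

theorem norm_sub (h : M →ₗ[ℤ] M) (m : ℕ) (hm : ∀ x, (h ^ m : Module.End ℤ M) x = x) (y : M) :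
    op h m 1 ((h - 1 : Module.End ℤ M) y) = 0 := by
  rw [op_one]
  have h1 := geom_sum_mul (h : Module.End ℤ M) m
  have h2 := LinearMap.congr_fun h1 y
  rw [Module.End.mul_apply] at h2
  rw [h2, LinearMap.sub_apply, hm, Module.End.one_apply, sub_self]

theorem nsmul_mem (h : M →ₗ[ℤ] M) (m : ℕ) (x : M) (hx : op h m 1 x = 0) :
    m • x ∈ LinearMap.range (h - 1 : Module.End ℤ M) := by
  rw [op_one, LinearMap.sum_apply] at hx
  have h1 : m • x = ∑ j ∈ Finset.range m, (x - (h ^ j : Module.End ℤ M) x) := by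
    rw [Finset.sum_sub_distrib, hx, sub_zero, Finset.sum_const, Finset.card_range]
  rw [h1]
  refine Submodule.sum_mem _ fun j _ => ?_
  have h2 : (h - 1 : Module.End ℤ M) ((∑ i ∈ Finset.range j, (h ^ i : Module.End ℤ M)) x) =
      (h ^ j : Module.End ℤ M) x - x := by
    rw [← Module.End.mul_apply, mul_geom_sum (h : Module.End ℤ M) j, LinearMap.sub_apply,
      Module.End.one_apply]
  rw [show x - (h ^ j : Module.End ℤ M) x = -((h ^ j : Module.End ℤ M) x - x) from
    (neg_sub _ _).symm]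
  rw [← h2]
  exact Submodule.neg_mem (LinearMap.range (h - 1 : Module.End ℤ M)) ⟨_, rfl⟩

theorem p_TORS : P_TORS := by
  intro M _ _ h m hm htf hp
  have hp' : ∀ x, (h ^ m : Module.End ℤ M) x = x := hp
  let R : Submodule ℤ M := LinearMap.range (h - 1 : Module.End ℤ M)
  let g : LinearMap.ker (op h m 1) →ₗ[ℤ] (M ⧸ R) := R.mkQ ∘ₗ (LinearMap.ker (op h m 1)).subtype
  have hker : (LinearMap.range (op h m (1 + 1))).submoduleOf (LinearMap.ker (op h m 1)) =
      LinearMap.ker g := by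
    ext x
    rw [LinearMap.mem_ker, op_two]
    exact (Submodule.Quotient.mk_eq_zero R).symm
  let e1 : Tate M h m 1 ≃ₗ[ℤ] LinearMap.range g :=
    (Submodule.quotEquivOfEq _ _ hker).trans (LinearMap.quotKerEquivRange g)
  have hrange : ∀ q : M ⧸ R, q ∈ LinearMap.range g ↔ q ∈ AddCommGroup.torsion (M ⧸ R) := by
    intro q
    rw [AddCommGroup.mem_torsion, isOfFinAddOrder_iff_nsmul_eq_zero]
    constructor
    · rintro ⟨x, rfl⟩
      refine ⟨m, hm, ?_⟩
      have h1 := nsmul_mem h m x.1 x.2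
      show m • (R.mkQ x.1) = 0
      rw [← map_nsmul]
      exact (Submodule.Quotient.mk_eq_zero R).mpr h1
    · rintro ⟨n, hn, hq⟩
      obtain ⟨x, rfl⟩ := Submodule.Quotient.mk_surjective R q
      have h1 : n • x ∈ R := by
        rw [← Submodule.Quotient.mk_eq_zero, Submodule.Quotient.mk_smul]
        exact hq
      obtain ⟨y, hy⟩ := h1
      have h2 : op h m 1 (n • x) = 0 := by
        rw [← hy]
        exact norm_sub h m hp' y
      have h3 : op h m 1 x = 0 := by
        apply htf _ (n : ℤ) (by exact_mod_cast hn.ne')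
        rw [natCast_zsmul, ← map_nsmul, h2]
      exact ⟨⟨x, h3⟩, rfl⟩
  refine ⟨⟨AddEquiv.symm (e1.toAddEquiv.trans
    { toFun := fun q => ⟨q.1, (hrange q.1).mp q.2⟩
      invFun := fun q => ⟨q.1, (hrange q.1).mpr q.2⟩
      left_inv := fun q => rfl
      right_inv := fun q => rfl
      map_add' := fun q q' => rfl })⟩, ?_⟩
  apply Module.finite_of_fg_torsion
  intro q
  obtain ⟨x, rfl⟩ := Submodule.Quotient.mk_surjective _ q
  refine ⟨⟨(m : ℤ), mem_nonZeroDivisors_of_ne_zero (by exact_mod_cast hm.ne')⟩, ?_⟩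
  change (m : ℤ) • (Submodule.Quotient.mk x : Tate M h m 1) = 0
  rw [← Submodule.Quotient.mk_smul, Submodule.Quotient.mk_eq_zero]
  have h1 := nsmul_mem h m x.1 x.2
  rw [← natCast_zsmul] at h1
  show (m : ℤ) • x.1 ∈ LinearMap.range (op h m (1 + 1))
  rw [op_two]
  exact h1

end Pool.Agent.W2helper71.OT
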